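import Pool.Agent.Q202.KS.Split

/-!
Krull-Schmidt theorem and cancellation for positive definite hermitian forms over integral group
rings, and the splitting of the forms which come from the integers.

Let `G` be any group. Forms are positive definite hermitian forms with values in `ℤG` on
`ℤG`-modules (for the involution `g ↦ g⁻¹`; the coefficient of `φ(x, x)` at `1` is positive for
`x ≠ 0`), nonsingular or not.

(1) Every form on a finitely generated module is the orthogonal sum of finitely many
indecomposable submodules, and an isometry maps the indecomposable submodules of such a decomposition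
bijectively to those of any decomposition of the target. So the commutative monoid of the isometry
classes (orthogonal sum) is free on the indecomposable classes.

(2) Cancellation: if `φ ⊥ ψ` and `φ' ⊥ ψ` are isometric, so are `φ` and `φ'`.

(3) If integral forms `χ`, `χ'` (with matrices `A`, `A'` over `ℤ` in suitable bases) and forms `ψ`,
`ψ'` without finite part are such that `χ ⊥ ψ` and `χ' ⊥ ψ'` are isometric over `ℤG`, then `A` and
`A'` are congruent over `ℤ`, and `ψ` and `ψ'` are isometric.

(4) If `G` is torsion-free, every form `φ` on a finitely generated projective module is `χ ⊥ ψ` with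
`χ` and `ψ` as in (3), `ψ` on a finitely generated projective module; if `φ` is nonsingular, so are
`A` and `ψ`.

By (3) and (4), for torsion-free `G` the monoid of the isometry classes of the (nonsingular) definite
forms over `ℤG` is the product of the one over `ℤ` and of the monoid of the classes without finite
part: in the definite part of hermitian K-theory the assembly map for the trivial subgroup is a
split injection, with the forms without finite part as complement of its image.
-/

set_option autoImplicit false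

namespace Pool.Agent.Results.MP_98022b_gt.CancellationDefinite

open Pool.Agent.Y75.SV Pool.Agent.Y75.EK Pool.Agent.Q202.KS

theorem result (G : Type) [Group G] :
    -- (1) Krull-Schmidt
    ((∀ (M : Type) [AddCommGroup M] [Module (MonoidAlgebra ℤ G) M]
        [Module.Finite (MonoidAlgebra ℤ G) M] (φ : HermForm G M), φ.Pos →
        ∃ (k : ℕ) (P : Fin k → Submodule (MonoidAlgebra ℤ G) M), OrthDec φ P) ∧
      (∀ (M : Type) [AddCommGroup M] [Module (MonoidAlgebra ℤ G) M] (N : Type) [AddCommGroup N]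
        [Module (MonoidAlgebra ℤ G) N] (φ : HermForm G M) (ψ : HermForm G N), ψ.Pos →
        ∀ (ι κ : Type) (P : ι → Submodule (MonoidAlgebra ℤ G) M)
        (Q : κ → Submodule (MonoidAlgebra ℤ G) N), OrthDec φ P → OrthDec ψ Q →
        ∀ α : M ≃ₗ[MonoidAlgebra ℤ G] N, (∀ x y, ψ.val (α x) (α y) = φ.val x y) →
        ∃ σ : ι ≃ κ, ∀ i, (P i).map α.toLinearMap = Q (σ i))) ∧
    -- (2) cancellation
    (∀ (M M' N : Type) [AddCommGroup M] [Module (MonoidAlgebra ℤ G) M]
      [AddCommGroup M'] [Module (MonoidAlgebra ℤ G) M'] [AddCommGroup N]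
      [Module (MonoidAlgebra ℤ G) N] [Module.Finite (MonoidAlgebra ℤ G) M]
      [Module.Finite (MonoidAlgebra ℤ G) M'] [Module.Finite (MonoidAlgebra ℤ G) N]
      (φ : HermForm G M) (φ' : HermForm G M') (ψ : HermForm G N), φ.Pos → φ'.Pos → ψ.Pos →
      Isometric (oplus φ ψ) (oplus φ' ψ) → Isometric φ φ') ∧
    -- (3) the part extended from the integers is determined
    (∀ (M M' N N' : Type) [AddCommGroup M] [Module (MonoidAlgebra ℤ G) M]
      [AddCommGroup M'] [Module (MonoidAlgebra ℤ G) M'] [AddCommGroup N]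
      [Module (MonoidAlgebra ℤ G) N] [AddCommGroup N'] [Module (MonoidAlgebra ℤ G) N']
      (χ : HermForm G M) (χ' : HermForm G M') (ψ : HermForm G N) (ψ' : HermForm G N'),
      χ.Pos → χ'.Pos → ψ.Pos → ψ'.Pos → ∀ (k k' : ℕ) (A : Matrix (Fin k) (Fin k) ℤ)
      (A' : Matrix (Fin k') (Fin k') ℤ), HasMatrix χ A → HasMatrix χ' A' →
      ψ.finPart = ⊥ → ψ'.finPart = ⊥ → Isometric (oplus χ ψ) (oplus χ' ψ') →
      (∃ (U : Matrix (Fin k) (Fin k') ℤ) (V : Matrix (Fin k') (Fin k) ℤ),
        U * V = 1 ∧ V * U = 1 ∧ A = U * A' * U.transpose) ∧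
      Isometric χ χ' ∧ Isometric ψ ψ') ∧
    -- (4) torsion-free groups
    ((∀ (g : G) (n : ℕ), n ≠ 0 → g ^ n = 1 → g = 1) →
      ∀ (M : Type) [AddCommGroup M] [Module (MonoidAlgebra ℤ G) M]
        [Module.Finite (MonoidAlgebra ℤ G) M] [Module.Projective (MonoidAlgebra ℤ G) M]
        (φ : HermForm G M), φ.Pos →
      ∃ (M₁ M₂ : Submodule (MonoidAlgebra ℤ G) M) (k : ℕ) (A : Matrix (Fin k) (Fin k) ℤ),
        Isometric (oplus (res φ M₁) (res φ M₂)) φ ∧
        HasMatrix (res φ M₁) A ∧ (∀ c : Fin k → ℤ, c ≠ 0 → 0 < c ⬝ᵥ A.mulVec c) ∧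
        (res φ M₂).finPart = ⊥ ∧ Module.Finite (MonoidAlgebra ℤ G) M₂ ∧
        Module.Projective (MonoidAlgebra ℤ G) M₂ ∧
        (φ.Nonsingular → IsUnit A ∧ (res φ M₂).Nonsingular)) := by
  refine ⟨⟨fun M _ _ _ φ hφ => exists_orthDec φ hφ,
      fun M _ _ N _ _ φ ψ hψ ι κ P Q hP hQ α hα => hP.uniq hQ hψ α hα⟩,
    fun M M' N _ _ _ _ _ _ _ _ _ φ φ' ψ hφ hφ' hψ h => cancel hφ hφ' hψ h, ?_, ?_⟩
  · intro M M' N N' _ _ _ _ _ _ _ _ χ χ' ψ ψ' hχ hχ' hψ hψ' k k' A A' hA hA' h1 h1' h
    have h2 : χ.finPart = ⊤ := finPart_of_extended χ ⟨k, hA.choose, A, hA.choose_spec⟩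
    have h2' : χ'.finPart = ⊤ := finPart_of_extended χ' ⟨k', hA'.choose, A', hA'.choose_spec⟩
    obtain ⟨h3, h4⟩ := isometric_parts hχ hψ hχ' hψ' h2 h1 h2' h1' h
    exact ⟨congruent hA hA' h3, h3, h4⟩
  · intro hG M _ _ _ _ φ hφ
    obtain ⟨k, b, A, hb, hA, hsplit, _, hn⟩ := main_fin hG φ hφ
    obtain ⟨h1, h2⟩ := perp_proj φ hφ hsplit
    exact ⟨φ.finPart, perp φ φ.finPart, k, A, split φ hφ hsplit, ⟨b, hb⟩, hA,
      finPart_perp φ hφ hsplit, h1, h2, fun h => ⟨hn h, nonsingular_perp φ hφ hsplit h⟩⟩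

end Pool.Agent.Results.MP_98022b_gt.CancellationDefinite
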