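import Pool.Agent.Q152.TA.Comm

/-!
# Groups acting on trees with commensurable stabilizers of finite rank

`Closed C` (`Pool.Agent.Y462.SS.Base`): the class `C` of groups contains `ℤ` and is closed under
groups that embed, finite products, free products, overgroups of finite index and colimits of directed
systems.  `ExtClosed C` (`Pool.Agent.Q152.WP.Perm`): if `G` maps onto a group `Q` of `C`, and the
kernel and the preimages of all infinite cyclic subgroups of `Q` are in `C`, then `G` is in `C`.
`HasSolvable C`: solvable groups are in `C`.  These properties are known for the class of the groups
which satisfy the `K`- and `L`-theoretic Farrell–Jones conjecture with coefficients in additive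
categories and finite wreath products.

`Comm H N` (`Pool.Agent.Q152.TA.Rank`): `H ∩ N` has finite index in `H` and in `N`.
`VD N`: the subgroup `N` has a commutative divisible torsion subgroup of finite index.
`Rk n N`, defined by recursion on `n`: `Rk 0 N` if `VD N'` for all subgroups `N'` of `N` (e.g. finite groups
and Chernikov groups), `Rk (n + 1) N` if `N` has a subgroup `H` of finite index with a homomorphism to
`ℚ` whose kernel `K` has the property `Rk n K`.  For example `Rk n N` holds for some `n` if `N` is
virtually polycyclic, more generally if `N` is a virtually solvable minimax group, like all finitely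
generated virtually solvable groups of finite rank (solvable Baumslag–Solitar groups and others).

Proof.  For a subgroup `N` let `charStab N` be the group of the elements of `N` which act trivially on
all homomorphisms from subgroups of finite index of `N` to `ℚ`, and let `charKer N` be the group of the
elements of `charStab N` on which all these homomorphisms vanish (where `χ` is extended by
`χ (g) = χ (g ^ m) / m`; this extension is a homomorphism on `charStab N` by a transfer argument).  If
`Rk n N`, then `charStab N` has finite index in `N`, because the spaces of homomorphisms to `ℚ` of the
subgroups of finite index have dimension at most `n`, and `n > 0` drops for `charKer N`.  The factor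
`charStab N / charKer N` is commutative.  Both constructions are compatible with passing to subgroups of
finite index.  So iterating them, and taking the finite residual at the end, gives a series of the
vertex stabilizers which is compatible with the edges, and the theorem on groups with such a series
(`tree_series`) applies.
-/

set_option autoImplicit false

namespace Pool.Agent.Results.MP_98022b_gt.CommensurableStabilizers

open Pool.Agent.Y462.SS Pool.Agent.Q152.WP Pool.Agent.Q152.TA Pool.Agent.Q91.FJ

/-- Let `C` be a class of groups with the closure properties `Closed C` and `ExtClosed C` which contains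
the solvable groups, let the group `Γ` act on a tree by graph automorphisms (with or without inversions,
with any number of orbits), let `f` be a homomorphism from `Γ` to a group of `C`, and let `N v` be the
intersection of the kernel of `f` and the stabilizer of `v`.

(1) If `N v` and `N w` are commensurable for adjacent vertices `v` and `w`, and `N v` has finite rank in
the sense of `Rk` for one vertex `v`, then `Γ` is in `C`.

(2) Let the vertex stabilizers be in `C`.  If for adjacent vertices `v` and `w` the groups `N v` and
`N w` meet trivially, or are commensurable and have finite rank in the sense of `Rk`, then `Γ` is in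
`C`. -/
theorem result (C : ∀ (G : Type) [Group G], Prop) (hC : Closed C) (hE : ExtClosed C)
    (hS : HasSolvable C)
    (V Γ : Type) [Group Γ] [MulAction Γ V] (T : SimpleGraph V) (hT : T.IsTree)
    (hadj : ∀ (γ : Γ) (x y : V), T.Adj x y → T.Adj (γ • x) (γ • y))
    (Q : Type) [Group Q] (hQ : C Q) (f : Γ →* Q) (N : V → Subgroup Γ)
    (hN : ∀ v, N v = f.ker ⊓ MulAction.stabilizer Γ v) :
    ((∃ (v : V) (n : ℕ), Rk n (N v)) → (∀ v w : V, T.Adj v w → Comm (N v) (N w)) → C Γ) ∧
    ((∀ v : V, C (MulAction.stabilizer Γ v)) →
      (∀ v w : V, T.Adj v w → N v ⊓ N w = ⊥ ∨ (Comm (N v) (N w) ∧ ∃ n : ℕ, Rk n (N v))) →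
      C Γ) := by
  obtain rfl : N = fun v => f.ker ⊓ MulAction.stabilizer Γ v := funext hN
  constructor
  · rintro ⟨v, n, h1⟩ h2
    have h3 : ∀ w : V, Rk n (f.ker ⊓ MulAction.stabilizer Γ w) := by
      intro w
      obtain ⟨p⟩ := hT.connected.preconnected v w
      induction p with
      | nil => exact h1
      | cons h _ ih => exact ih (h1.comm (h2 _ _ h))
    exact tree_comm hT hadj hC hE hS hQ f n (Or.inr h3) (fun v w h => Or.inr ⟨h2 v w h, h3 v⟩)
  · intro hv he
    refine tree_comm' hT hadj hC hE hS hQ f hv (fun v w hvw => ?_)
    rcases he v w hvw with h | h
    · left
      intro x hx hxw
      have h1 : x ∈ (f.ker ⊓ MulAction.stabilizer Γ v) ⊓ (f.ker ⊓ MulAction.stabilizer Γ w) :=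
        ⟨hx, hx.1, hxw⟩
      have h2 : x ∈ (⊥ : Subgroup Γ) := h ▸ h1
      exact Subgroup.mem_bot.1 h2
    · exact Or.inr h

end Pool.Agent.Results.MP_98022b_gt.CommensurableStabilizers
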