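import Pool.Agent.Q202.LT.Fin

/-!
Positive definite hermitian forms over the integral group ring of a torsion-free group.

Let `G` be torsion-free, `M` a finitely generated projective `ℤG`-module and `φ` a positive
definite hermitian form on `M`. The finite part of `(M, φ)` is the submodule generated by the
subgroups of finite rank which are orthogonal direct summands of the lattice `M` (for the coefficient
of `φ` at `1`).

(1) The finite part is an orthogonal direct summand, and it is extended from `ℤ`: it is a free module,
with a basis in which the matrix of `φ` is a positive definite integral matrix `A`; if `φ` is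
nonsingular, `A` is unimodular, and if `φ` is even, so is `A`. The isometries of `φ` act on the
finite part as the products of diagonal matrices with entries in `G` and matrices in `GL(ℤ)`. The
orthogonal complement has finite part zero.

(2) Hence `φ` is extended from `ℤ` if and only if its finite part is `M`.

(3) If `φ` is uniformly positive and `M` is generated by the vectors of norm at most two, then `φ` is
extended from `ℤ`.

For an even nonsingular form which is extended from `ℤ` the class in `L₀(ℤG)` is in the image of
`L₀(ℤ)`, and so in the image of the assembly map.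
-/

set_option autoImplicit false

namespace Pool.Agent.Results.MP_98022b_gt.DefiniteForms

open Pool.Agent.Y75.SV Pool.Agent.Y75.EK Pool.Agent.Q202.LT

theorem result (G : Type) [Group G] (hG : ∀ (g : G) (n : ℕ), n ≠ 0 → g ^ n = 1 → g = 1)
    (M : Type) [AddCommGroup M] [Module (MonoidAlgebra ℤ G) M]
    [Module.Finite (MonoidAlgebra ℤ G) M] [Module.Projective (MonoidAlgebra ℤ G) M]
    (φ : HermForm G M) (hpos : φ.Pos) :
    -- (1) the finite part is an orthogonal summand which is extended from `ℤ`
    (∃ (k : ℕ) (b : Module.Basis (Fin k) (MonoidAlgebra ℤ G) φ.finPart)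
      (A : Matrix (Fin k) (Fin k) ℤ),
      (∀ i j, φ.val (b i) (b j) = MonoidAlgebra.single 1 (A i j)) ∧
      (∀ c : Fin k → ℤ, c ≠ 0 → 0 < c ⬝ᵥ A.mulVec c) ∧
      (∀ x : M, ∃ y ∈ φ.finPart, OrthFin φ (x - y)) ∧
      (∀ α : M ≃ₗ[MonoidAlgebra ℤ G] M, IsIsometry φ α →
        ∃ (g : Fin k → G) (U : Matrix (Fin k) (Fin k) ℤ), IsUnit U ∧
          ∀ i, α (b i) = ∑ j, (MonoidAlgebra.single (g i) (U i j) : MonoidAlgebra ℤ G) •
            (b j : M)) ∧
      (φ.Nonsingular → IsUnit A) ∧
      (IsEven φ → ∀ i, Even (A i i))) ∧
    -- the orthogonal complement has no finite part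
    (∀ A : AddSubgroup M, A.FG → (∀ a ∈ A, OrthFin φ a) →
      (∀ x, OrthFin φ x → ∃ a ∈ A, ∀ b ∈ A, (φ.val (x - a) b).coeff 1 = 0) → A = ⊥) ∧
    -- (2)
    (φ.ExtendedFromInt ↔ φ.finPart = ⊤) ∧
    -- (3)
    (φ.UniformlyPos → φ.shortSpan = ⊤ → φ.ExtendedFromInt) := by
  obtain ⟨k, b, A, h1, h2, h3, h4, h5⟩ := main_fin hG φ hpos
  exact ⟨⟨k, b, A, h1, h2, h3, fun α hα => h4 α hα, h5,
      fun hev i => even_diag φ hev (b i) (A i i) (h1 i i)⟩,
    fun A hA h h' => no_fin φ hpos h3 A hA h h',
    ⟨finPart_of_extended φ, extended_of_finPart hG φ hpos⟩,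
    fun hu hs => extended_of_finPart hG φ hpos (finPart_of_short φ hu hs)⟩

end Pool.Agent.Results.MP_98022b_gt.DefiniteForms
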