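import Pool.Agent.Q152.WP.Perm

/-!
# The class of Farrell–Jones groups is closed under restricted wreath products

`Closed C` (`Pool.Agent.Y462.SS.Base`): the class `C` of groups contains `ℤ` and is closed under
groups that embed, finite products, free products, overgroups of finite index and colimits of directed
systems with arbitrary structure maps.  `ExtClosed C`: if `G` maps onto a group `Q` of `C`, and the
kernel and the preimages of all infinite cyclic subgroups of `Q` are in `C`, then `G` is in `C`.  All
these properties are known for the class of the groups which satisfy the K- and L-theoretic
Farrell–Jones conjecture with coefficients and finite wreath products.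

`PW A X H` is the restricted permutational wreath product of `A` and `H` over the `H`-set `X`: the
pairs `(s, h)`, `s : X → A` with finite support, `h ∈ H`, with
`(s, h) (s', h') = (x ↦ s (h' x) s' (x), h h')`; for `X = H` it is the restricted wreath product.

Outline of the proof.  For a subgroup `K` of finite index of `H` the free product `A * H` maps to the
wreath product of `A * H` with the finite symmetric group of `H / K`: an element `a` of `A` is put at
the coset `K`, an element `h` of `H` permutes the cosets and is also put at all the cosets.  The
kernels of these homomorphisms increase when `K` decreases, and if `H` is residually finite their
union is the kernel of the homomorphism to the restricted wreath product: when the positions of the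
letters of a word are separated by `K`, the letters at different positions commute in the image.  So
the wreath product is the directed colimit of subgroups of finite wreath products of `A * H`.  In
particular `A ≀ ℤ` is in `C`; in the general case the preimages of the infinite cyclic subgroups are
decomposed according to orbits.
-/

set_option autoImplicit false

namespace Pool.Agent.Results.MP_98022b_gt.WreathProducts

open Pool.Agent.Y462.SS Pool.Agent.Q152.WP

/-- Let `C` be a class of groups with the closure properties `Closed C`.
(1) If `A` and `H` are in `C` and `H` is residually finite, then the restricted wreath product of `A`
and `H` is in `C`.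
(2) If `C` also has the extension property, then the restricted permutational wreath product of any
groups `A` and `H` of `C` over any `H`-set is in `C`.
(3) The restricted permutational wreath products of torsion-free groups are torsion-free. -/
theorem result :
    (∀ C : ∀ (G : Type) [Group G], Prop, Closed C →
      (∀ (A H : Type) [Group A] [Group H], C A → C H →
        (∀ h : H, h ≠ 1 → ∃ K : Subgroup H, K.FiniteIndex ∧ h ∉ K) → C (PW A H H)) ∧
      (ExtClosed C → ∀ (A X H : Type) [Group A] [Group H] [MulAction H X], C A → C H →
        C (PW A X H))) ∧
    (∀ (A X H : Type) [Group A] [Group H] [MulAction H X],
      (∀ a : A, IsOfFinOrder a → a = 1) → (∀ h : H, IsOfFinOrder h → h = 1) →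
        ∀ g : PW A X H, IsOfFinOrder g → g = 1) :=
  ⟨fun _ hC => ⟨fun _ _ _ _ hA hH hr => wreath_resFin hC hA hH hr,
    fun hE _ _ _ _ _ _ hA hH => wreath_perm hC hE hA hH⟩,
    fun _ _ _ _ _ _ hA hH g hg => torsionFree hA hH g hg⟩

end Pool.Agent.Results.MP_98022b_gt.WreathProducts
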